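import Mathlib

/-!
# Quasi-geometric flat bundles: data and known facts
-/

namespace Pool.Agent.N522.QG

/-- Bases and regular-singular flat bundles on them. -/
structure Theory where
  /-- connected bases `Y` as in the question -/
  Base : Type
  /-- regular-singular flat bundles -/
  FB : Base → Type
  /-- rank -/
  rank : ∀ {Y : Base}, FB Y → ℕ
  /-- determinant -/
  det : ∀ {Y : Base}, FB Y → FB Y
  /-- quasi-geometric -/
  QuasiGeo : ∀ {Y : Base}, FB Y → Prop
  /-- geometric -/
  Geo : ∀ {Y : Base}, FB Y → Prop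
  /-- semisimple monodromy -/
  Semisimple : ∀ {Y : Base}, FB Y → Prop
  /-- irreducible monodromy -/
  Irred : ∀ {Y : Base}, FB Y → Prop
  /-- finite monodromy group -/
  FiniteMon : ∀ {Y : Base}, FB Y → Prop
  /-- the monodromy group has a solvable subgroup of finite index -/
  VirtSolv : ∀ {Y : Base}, FB Y → Prop
  /-- the Zariski closure of the monodromy group is connected -/
  Conn : ∀ {Y : Base}, FB Y → Prop
  /-- the Zariski closure of the monodromy group is a connected semisimple group -/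
  ConnSS : ∀ {Y : Base}, FB Y → Prop
  /-- `E` is isomorphic to the direct sum of the members of the list -/
  IsSum : ∀ {Y : Base}, FB Y → List (FB Y) → Prop
  /-- connected finite étale covers `Y' → Y` -/
  Cover : Base → Base → Type
  /-- pull-back -/
  pull : ∀ {Y' Y : Base}, Cover Y' Y → FB Y → FB Y'

variable {T : Theory}

/-- Q1 -/
def Q1 (T : Theory) : Prop :=
  ∀ (Y : T.Base) (E : T.FB Y), T.Semisimple E → T.QuasiGeo E → T.Geo E

/-- Known facts. -/
structure Facts (T : Theory) : Prop where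
  /-- semisimple bundles are sums of irreducible ones -/
  decomp : ∀ (Y : T.Base) (E : T.FB Y), T.Semisimple E →
    ∃ l : List (T.FB Y), T.IsSum E l ∧ ∀ L ∈ l, T.Irred L
  /-- summands of quasi-geometric bundles -/
  summand : ∀ (Y : T.Base) (E : T.FB Y) (l : List (T.FB Y)), T.Semisimple E → T.QuasiGeo E →
    T.IsSum E l → (∀ L ∈ l, T.Irred L) → ∀ L ∈ l, T.QuasiGeo L
  /-- sums of geometric bundles -/
  geo_sum : ∀ (Y : T.Base) (E : T.FB Y) (l : List (T.FB Y)), T.IsSum E l → (∀ L ∈ l, T.Geo L) →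
    T.Geo E
  /-- finite étale descent of geometricity -/
  geo_descent : ∀ (Y' Y : T.Base) (c : T.Cover Y' Y) (E : T.FB Y), T.Geo (T.pull c E) → T.Geo E
  /-- pull-back of quasi-geometric bundles -/
  qg_pull : ∀ (Y' Y : T.Base) (c : T.Cover Y' Y) (E : T.FB Y), T.QuasiGeo E →
    T.QuasiGeo (T.pull c E)
  /-- pull-back of semisimple bundles (Clifford) -/
  ss_pull : ∀ (Y' Y : T.Base) (c : T.Cover Y' Y) (E : T.FB Y), T.Semisimple E →
    T.Semisimple (T.pull c E)
  /-- pull-back of virtually solvable monodromy -/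
  vs_pull : ∀ (Y' Y : T.Base) (c : T.Cover Y' Y) (E : T.FB Y), T.VirtSolv E →
    T.VirtSolv (T.pull c E)
  /-- the Zariski closure becomes connected on a finite étale cover -/
  conn_cover : ∀ (Y : T.Base) (E : T.FB Y), ∃ (Y' : T.Base) (c : T.Cover Y' Y), T.Conn (T.pull c E)
  /-- summands of a bundle with connected Zariski closure -/
  conn_summand : ∀ (Y : T.Base) (E : T.FB Y) (l : List (T.FB Y)), T.Conn E → T.IsSum E l →
    ∀ L ∈ l, T.Conn L
  /-- summands of a bundle with virtually solvable monodromy -/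
  vs_summand : ∀ (Y : T.Base) (E : T.FB Y) (l : List (T.FB Y)), T.VirtSolv E → T.IsSum E l →
    ∀ L ∈ l, T.VirtSolv L
  /-- Lie–Kolchin -/
  lieKolchin : ∀ (Y : T.Base) (L : T.FB Y), T.Irred L → T.Conn L → T.VirtSolv L → T.rank L = 1
  /-- Simpson: quasi-geometric bundles of rank one have finite monodromy -/
  simpson : ∀ (Y : T.Base) (L : T.FB Y), T.rank L = 1 → T.QuasiGeo L → T.FiniteMon L
  /-- finite monodromy is geometric -/
  finite_geo : ∀ (Y : T.Base) (L : T.FB Y), T.FiniteMon L → T.Geo L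
  /-- determinants -/
  det_rank : ∀ (Y : T.Base) (L : T.FB Y), T.rank (T.det L) = 1
  /-- determinants -/
  det_qg : ∀ (Y : T.Base) (L : T.FB Y), T.QuasiGeo L → T.QuasiGeo (T.det L)
  /-- for irreducible bundles the centre of the closure acts by scalars, and is finite if the
  determinant has finite order -/
  ss_of_det : ∀ (Y : T.Base) (L : T.FB Y), T.Irred L → T.Conn L → T.FiniteMon (T.det L) →
    T.ConnSS L
  /-- finite monodromy descends, and passes to sums -/
  finite_descent : ∀ (Y' Y : T.Base) (c : T.Cover Y' Y) (E : T.FB Y), T.FiniteMon (T.pull c E) →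
    T.FiniteMon E
  /-- sums -/
  finite_sum : ∀ (Y : T.Base) (E : T.FB Y) (l : List (T.FB Y)), T.IsSum E l →
    (∀ L ∈ l, T.FiniteMon L) → T.FiniteMon E

/-- Q1 for irreducible bundles whose monodromy group has connected semisimple Zariski closure -/
def Q1SS (T : Theory) : Prop :=
  ∀ (Y : T.Base) (L : T.FB Y), T.Irred L → T.ConnSS L → T.QuasiGeo L → T.Geo L

/-- The reduction. -/
theorem q1_of_ss (F : Facts T) (h : Q1SS T) : Q1 T := by
  intro Y E hS hQ
  obtain ⟨Y', c, hc⟩ := F.conn_cover Y E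
  apply F.geo_descent Y' Y c E
  have hS' := F.ss_pull Y' Y c E hS
  have hQ' := F.qg_pull Y' Y c E hQ
  obtain ⟨l, hl, hirr⟩ := F.decomp Y' _ hS'
  refine F.geo_sum Y' _ l hl fun L hL => ?_
  have hLQ := F.summand Y' _ l hS' hQ' hl hirr L hL
  have hLC := F.conn_summand Y' _ l hc hl L hL
  exact h Y' L (hirr L hL) (F.ss_of_det Y' L (hirr L hL) hLC
    (F.simpson Y' _ (F.det_rank Y' L) (F.det_qg Y' L hLQ))) hLQ

/-- Virtually solvable monodromy. -/
theorem finite_of_virtSolv (F : Facts T) (Y : T.Base) (E : T.FB Y) (hS : T.Semisimple E)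
    (hQ : T.QuasiGeo E) (hV : T.VirtSolv E) : T.FiniteMon E := by
  obtain ⟨Y', c, hc⟩ := F.conn_cover Y E
  apply F.finite_descent Y' Y c E
  have hS' := F.ss_pull Y' Y c E hS
  have hQ' := F.qg_pull Y' Y c E hQ
  have hV' := F.vs_pull Y' Y c E hV
  obtain ⟨l, hl, hirr⟩ := F.decomp Y' _ hS'
  refine F.finite_sum Y' _ l hl fun L hL => ?_
  refine F.simpson Y' L ?_ (F.summand Y' _ l hS' hQ' hl hirr L hL)
  exact F.lieKolchin Y' L (hirr L hL) (F.conn_summand Y' _ l hc hl L hL)
    (F.vs_summand Y' _ l hV' hl L hL)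

end Pool.Agent.N522.QG
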